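import Pool.Agent.Lib.MP_405077_mp.Defs

set_option autoImplicit false

open MeasureTheory Set Filter Topology

namespace Pool.Agent.Lib.MP_405077_mp.H94

open Pool.Agent.Lib.MP_405077_mp

theorem BC_integrable {f : E3 → ℝ} (hf : BC f) : Integrable f := by
  obtain ⟨M, hM⟩ := hf.bdd
  obtain ⟨r, hr⟩ := hf.supp
  have hs : IntegrableOn f (Metric.closedBall (0 : E3) r) := by
    refine Measure.integrableOn_of_bounded (M := M) ?_ hf.meas.aestronglyMeasurable ?_
    · exact (isCompact_closedBall (0 : E3) r).measure_lt_top.ne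
    · exact Eventually.of_forall (fun x => by simpa using hM x)
  refine (integrableOn_iff_integrable_of_support_subset ?_).1 hs
  intro x hx
  by_contra h
  apply hx
  apply hr
  simpa [Metric.mem_closedBall, dist_zero_right] using h

theorem BC_mul_cont {f g : E3 → ℝ} (hf : BC f) (hg : Continuous g) :
    BC (fun x => f x * g x) := by
  obtain ⟨M, hM⟩ := hf.bdd
  obtain ⟨r, hr⟩ := hf.supp
  obtain ⟨C, hC⟩ := (isCompact_closedBall (0 : E3) r).exists_bound_of_continuousOn hg.continuousOn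
  refine ⟨hf.meas.mul hg.measurable, ⟨|M| * |C|, fun x => ?_⟩, ⟨r, fun x hx => by simp [hr x hx]⟩⟩
  by_cases h : r < ‖x‖
  · rw [hr x h]; simp; positivity
  · have hx : x ∈ Metric.closedBall (0 : E3) r := by
      simpa [Metric.mem_closedBall, dist_zero_right] using h
    have h1 := hC x hx
    have h2 := hM x
    rw [abs_mul]
    have h1' : |g x| ≤ |C| := (by simpa using h1 : |g x| ≤ C).trans (le_abs_self C)
    have h2' : |f x| ≤ |M| := h2.trans (le_abs_self M)
    exact mul_le_mul h2' h1' (abs_nonneg _) (abs_nonneg _)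

theorem BC_of_cont {g : E3 → ℝ} (hg : Continuous g) {r : ℝ} (hr : ∀ x, r < ‖x‖ → g x = 0) :
    BC g := by
  obtain ⟨C, hC⟩ := (isCompact_closedBall (0 : E3) r).exists_bound_of_continuousOn hg.continuousOn
  refine ⟨hg.measurable, ⟨|C|, fun x => ?_⟩, ⟨r, hr⟩⟩
  by_cases h : r < ‖x‖
  · rw [hr x h]; simp
  · have hx : x ∈ Metric.closedBall (0 : E3) r := by
      simpa [Metric.mem_closedBall, dist_zero_right] using h
    exact (by simpa using hC x hx : |g x| ≤ C).trans (le_abs_self C)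

theorem BC_sub {f g : E3 → ℝ} (hf : BC f) (hg : BC g) : BC (fun x => f x - g x) := by
  obtain ⟨M, hM⟩ := hf.bdd
  obtain ⟨r, hr⟩ := hf.supp
  obtain ⟨M', hM'⟩ := hg.bdd
  obtain ⟨r', hr'⟩ := hg.supp
  refine ⟨hf.meas.sub hg.meas, ⟨M + M', fun x => ?_⟩, ⟨max r r', fun x hx => ?_⟩⟩
  · have h1 := hM x
    have h2 := hM' x
    have := abs_sub (f x) (g x)
    linarith
  · rw [hr x (lt_of_le_of_lt (le_max_left _ _) hx), hr' x (lt_of_le_of_lt (le_max_right _ _) hx)]
    simp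

theorem pot_sub {f g : E3 → ℝ} (hP : PotStatement) (hf : BC f) (hg : BC g) (x : E3) :
    pot (fun x => f x - g x) x = pot f x - pot g x := by
  unfold pot
  rw [← integral_sub ((hP f hf).1 x) ((hP g hg).1 x)]
  congr 1
  funext y
  ring

theorem pot_nonneg {f : E3 → ℝ} (hf : ∀ x, 0 ≤ f x) (x : E3) : 0 ≤ pot f x :=
  integral_nonneg (fun y => div_nonneg (hf y) (norm_nonneg _))

theorem pot_mono {f g : E3 → ℝ} (hP : PotStatement) (hf : BC f) (hg : BC g)
    (h : ∀ x, f x ≤ g x) (x : E3) : pot f x ≤ pot g x := by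
  unfold pot
  refine integral_mono ((hP f hf).1 x) ((hP g hg).1 x) (fun y => ?_)
  exact div_le_div_of_nonneg_right (h y) (norm_nonneg _)

theorem kerB_abs_le (d a b : E3) : |kerB d a b| ≤ (‖a‖ ^ 2 + ‖b‖ ^ 2) / (2 * ‖d‖) := by
  unfold kerB
  by_cases hd : d = 0
  · subst hd; simp
  have hd0 : 0 < ‖d‖ := norm_pos_iff.2 hd
  -- the reflected vector
  set c : E3 := b - (2 * inner ℝ d b / ‖d‖ ^ 2) • d with hc
  have h1 : inner ℝ a b - 2 * inner ℝ d a * inner ℝ d b / ‖d‖ ^ 2 = inner ℝ a c := by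
    rw [hc, inner_sub_right, inner_smul_right, real_inner_comm a d]
    ring
  have h2 : ‖c‖ ^ 2 = ‖b‖ ^ 2 := by
    rw [hc, norm_sub_sq_real, inner_smul_right, norm_smul, real_inner_comm d b]
    rw [mul_pow, Real.norm_eq_abs, sq_abs]
    field_simp
    ring
  rw [h1, abs_div, abs_norm, div_le_div_iff₀ hd0 (by positivity)]
  have h3 : |inner ℝ a c| ≤ ‖a‖ * ‖c‖ := abs_real_inner_le_norm a c
  have h4 : ‖a‖ * ‖c‖ ≤ (‖a‖ ^ 2 + ‖c‖ ^ 2) / 2 := by nlinarith [sq_nonneg (‖a‖ - ‖c‖)]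
  rw [h2] at h4
  nlinarith

end Pool.Agent.Lib.MP_405077_mp.H94
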