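import Pool.Agent.Lib.MP_405077_mp.Defs
import Pool.Agent.Lib.MP_405077_mp.Statement
import Pool.Agent.Lib.MP_405077_mp.H35.Leg
import Pool.Agent.Lib.MP_405077_mp.H63.Below

set_option autoImplicit false

open MeasureTheory Set Filter Topology

namespace Pool.Agent.Lib.MP_405077_mp.H94

open Pool.Agent.Lib.MP_405077_mp

/-- The rescaled density `s³ σ(s x)`. -/
noncomputable def scl (s : ℝ) (σ : E3 → ℝ) (x : E3) : ℝ := s ^ 3 * σ (s • x)

theorem integral_scale {s : ℝ} (hs : 0 < s) (f : E3 → ℝ) :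
    ∫ x, f (s • x) = (s ^ 3)⁻¹ * ∫ x, f x := by
  rw [Measure.integral_comp_smul]
  have : Module.finrank ℝ E3 = 3 := by simp [E3]
  rw [this, smul_eq_mul, abs_of_pos (by positivity)]

theorem adm_scl {s : ℝ} (hs : 0 < s) {σ : E3 → ℝ} (hσ : Adm σ) : Adm (scl s σ) := by
  refine ⟨fun x => mul_nonneg (by positivity) (hσ.nonneg _), ?_, ?_⟩
  · exact (hσ.int.comp_smul hs.ne').const_mul _
  · have h1 := (hσ.int53.comp_smul hs.ne').const_mul ((s ^ 3) ^ (5 / 3 : ℝ))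
    refine h1.congr (Eventually.of_forall fun x => ?_)
    simp only [scl]
    rw [Real.mul_rpow (by positivity) (hσ.nonneg _)]

theorem int_scl {s : ℝ} (hs : 0 < s) (σ : E3 → ℝ) : ∫ x, scl s σ x = ∫ x, σ x := by
  unfold scl
  rw [integral_const_mul, integral_scale hs]
  field_simp

theorem kin_scl {s : ℝ} (hs : 0 < s) {σ : E3 → ℝ} (hσ : Adm σ) :
    kin (scl s σ) = s ^ 2 * kin σ := by
  unfold kin
  have e1 : ∀ x, scl s σ x ^ (5 / 3 : ℝ) = s ^ 5 * (fun x => σ x ^ (5 / 3 : ℝ)) (s • x) := by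
    intro x
    simp only [scl]
    rw [Real.mul_rpow (by positivity) (hσ.nonneg _)]
    congr 1
    rw [← Real.rpow_natCast s 3, ← Real.rpow_mul hs.le, ← Real.rpow_natCast s 5]
    norm_num
  simp only [e1]
  rw [integral_const_mul, integral_scale hs (fun x => σ x ^ (5 / 3 : ℝ))]
  field_simp

theorem pot_scl {s : ℝ} (hs : 0 < s) (σ : E3 → ℝ) (x : E3) :
    pot (scl s σ) x = s * pot σ (s • x) := by
  unfold pot
  have e1 : ∀ y, scl s σ y / ‖x - y‖ =
      s ^ 4 * (fun w => σ w / ‖s • x - w‖) (s • y) := by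
    intro y
    simp only [scl]
    rw [← smul_sub, norm_smul, Real.norm_of_nonneg hs.le]
    by_cases h : ‖x - y‖ = 0
    · simp [h]
    · field_simp
  simp only [e1]
  rw [integral_const_mul, integral_scale hs (fun w => σ w / ‖s • x - w‖)]
  field_simp

theorem dir_scl {s : ℝ} (hs : 0 < s) (σ : E3 → ℝ) : dir (scl s σ) = s * dir σ := by
  unfold dir
  have e1 : ∀ x, scl s σ x * pot (scl s σ) x = s ^ 4 * (fun w => σ w * pot σ w) (s • x) := by
    intro x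
    rw [pot_scl hs]
    simp only [scl]
    ring
  simp only [e1]
  rw [integral_const_mul, integral_scale hs (fun w => σ w * pot σ w)]
  field_simp

theorem nuc_scl {k : ℕ} (z : Fin k → ℝ) (R : Fin k → E3) {l : ℝ} (hl : 0 < l) (x : E3) :
    nuc z (fun i => l • R i) x = l⁻¹ * nuc z R (l⁻¹ • x) := by
  unfold nuc
  rw [Finset.mul_sum]
  refine Finset.sum_congr rfl (fun i _ => ?_)
  have : x - l • R i = l • (l⁻¹ • x - R i) := by
    rw [smul_sub, smul_inv_smul₀ hl.ne']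
  rw [this, norm_smul, Real.norm_of_nonneg hl.le]
  by_cases h : ‖l⁻¹ • x - R i‖ = 0
  · simp [h]
  · field_simp

theorem att_scl {k : ℕ} (z : Fin k → ℝ) (R : Fin k → E3) {l : ℝ} (hl : 0 < l) (σ : E3 → ℝ) :
    ∫ x, nuc z (fun i => l • R i) x * scl l⁻¹ σ x = l⁻¹ * ∫ x, nuc z R x * σ x := by
  have hs : 0 < l⁻¹ := inv_pos.2 hl
  have e1 : ∀ x, nuc z (fun i => l • R i) x * scl l⁻¹ σ x =
      l⁻¹ ^ 4 * (fun w => nuc z R w * σ w) (l⁻¹ • x) := by
    intro x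
    rw [nuc_scl z R hl]
    simp only [scl]
    ring
  simp only [e1]
  rw [integral_const_mul, integral_scale hs (fun w => nuc z R w * σ w)]
  field_simp

/-- The functional for the dilated nuclei in terms of the fixed nuclei. -/
theorem fun_scl {k : ℕ} (γ : ℝ) (z : Fin k → ℝ) (R : Fin k → E3) {l : ℝ} (hl : 0 < l)
    {σ : E3 → ℝ} (hσ : Adm σ) :
    fun0 γ 1 0 (nuc z (fun i => l • R i)) (scl l⁻¹ σ) = fun0 γ l⁻¹ 0 (nuc z R) σ := by
  have hs : 0 < l⁻¹ := inv_pos.2 hl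
  unfold fun0
  rw [kin_scl hs hσ, att_scl z R hl, dir_scl hs]
  ring

theorem scl_scl {s t : ℝ} (h : s * t = 1) (σ : E3 → ℝ) : scl s (scl t σ) = σ := by
  funext x
  simp only [scl]
  rw [smul_smul, mul_comm t s, h, one_smul, ← mul_assoc, ← mul_pow, h, one_pow, one_mul]

theorem einf_scl {k : ℕ} (γ : ℝ) (z : Fin k → ℝ) (R : Fin k → E3) {l : ℝ} (hl : 0 < l)
    (lam : ℝ) : einf z (fun i => l • R i) γ 1 lam = einf z R γ l⁻¹ lam := by
  have hs : 0 < l⁻¹ := inv_pos.2 hl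
  unfold einf
  congr 1
  ext t
  simp only [mem_setOf_eq]
  constructor
  · rintro ⟨σ, hσ, hi, rfl⟩
    refine ⟨scl l σ, adm_scl hl hσ, by rw [int_scl hl, hi], ?_⟩
    rw [← fun_scl γ z R hl (adm_scl hl hσ), scl_scl (inv_mul_cancel₀ hl.ne')]
  · rintro ⟨σ, hσ, hi, rfl⟩
    exact ⟨scl l⁻¹ σ, adm_scl hs hσ, by rw [int_scl hs, hi], (fun_scl γ z R hl hσ).symm⟩

/-! ### The problem's functional -/

theorem memLp_iff {ρ : E3 → ℝ} (h0 : ∀ x, 0 ≤ ρ x) (h1 : Integrable ρ) :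
    MemLp ρ (5 / 3) ↔ Integrable (fun x => ρ x ^ (5 / 3 : ℝ)) := by
  have h53 : (5 / 3 : ENNReal) ≠ 0 := by simp
  have h53' : (5 / 3 : ENNReal) ≠ ⊤ := by
    exact (ENNReal.div_lt_top (by simp) (by simp)).ne
  have hr : (5 / 3 : ENNReal).toReal = 5 / 3 := by
    rw [ENNReal.toReal_div]; norm_num
  have h2 := integrable_norm_rpow_iff (μ := (volume : Measure E3)) h1.aestronglyMeasurable h53 h53'
  rw [hr] at h2
  rw [← h2]
  refine integrable_congr (Eventually.of_forall fun x => ?_)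
  simp only
  rw [Real.norm_of_nonneg (h0 x)]

theorem functional_eq {k : ℕ} (γ : ℝ) (z : Fin k → ℝ) (R : Fin k → E3) (ρ : E3 → ℝ) :
    TF.functional γ z R ρ = fun0 γ 1 0 (nuc z R) ρ + TF.U z R := by
  unfold TF.functional fun0 kin dir
  have e1 : (∫ x, ∫ y, ρ x * ρ y / ‖x - y‖) = ∫ x, ρ x * pot ρ x := by
    congr 1; funext x
    unfold pot
    rw [← integral_const_mul]
    congr 1; funext y
    ring
  rw [e1]
  have e2 : (∫ x, TF.V z R x * ρ x) = ∫ x, nuc z R x * ρ x := rfl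
  rw [e2]
  ring

theorem functional_congr {k : ℕ} (γ : ℝ) (z : Fin k → ℝ) (R : Fin k → E3) {ρ σ : E3 → ℝ}
    (h : ρ =ᵐ[volume] σ) : TF.functional γ z R ρ = TF.functional γ z R σ := by
  unfold TF.functional
  have e1 : ∫ x, ρ x ^ (5 / 3 : ℝ) = ∫ x, σ x ^ (5 / 3 : ℝ) :=
    integral_congr_ae (h.mono fun x hx => by simp only [hx])
  have e2 : ∫ x, TF.V z R x * ρ x = ∫ x, TF.V z R x * σ x :=
    integral_congr_ae (h.mono fun x hx => by simp only [hx])
  have e3 : (∫ x, ∫ y, ρ x * ρ y / ‖x - y‖) = ∫ x, ∫ y, σ x * σ y / ‖x - y‖ := by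
    refine integral_congr_ae (h.mono fun x hx => ?_)
    exact integral_congr_ae (h.mono fun y hy => by simp only [hx, hy])
  rw [e1, e2, e3]

/-- The set of values of the problem is the shifted set of values of `fun0`. -/
theorem values_eq {k : ℕ} (γ : ℝ) (z : Fin k → ℝ) (R : Fin k → E3) (lam : ℝ) :
    TF.values γ z R lam = {t | ∃ σ : E3 → ℝ, Adm σ ∧ ∫ x, σ x = lam ∧
      t = fun0 γ 1 0 (nuc z R) σ + TF.U z R} := by
  ext t
  simp only [TF.values, mem_setOf_eq]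
  constructor
  · rintro ⟨ρ, h0, h53, h1, hi, rfl⟩
    set σ : E3 → ℝ := fun x => max (ρ x) 0 with hσ
    have hae : ρ =ᵐ[volume] σ := by
      filter_upwards [h0] with x hx
      simp only [hσ]
      exact (max_eq_left hx).symm
    have hσ0 : ∀ x, 0 ≤ σ x := fun x => le_max_right _ _
    have hσ1 : Integrable σ := (memLp_one_iff_integrable.1 h1).congr hae
    have hσ53 : MemLp σ (5 / 3) := h53.ae_eq hae
    refine ⟨σ, ⟨hσ0, hσ1, (memLp_iff hσ0 hσ1).1 hσ53⟩, ?_, ?_⟩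
    · rw [← hi]; exact (integral_congr_ae hae).symm
    · rw [← functional_eq, functional_congr γ z R hae]
  · rintro ⟨σ, hσ, hi, rfl⟩
    refine ⟨σ, Eventually.of_forall hσ.nonneg, (memLp_iff hσ.nonneg hσ.int).2 hσ.int53,
      memLp_one_iff_integrable.2 hσ.int, hi, (functional_eq γ z R σ).symm⟩

/-- Nonempty and bounded below. -/
theorem values_ok {k : ℕ} (γ : ℝ) (z : Fin k → ℝ) (R : Fin k → E3) (hz : ∀ i, 0 < z i)
    (hγ : 0 < γ) (lam : ℝ) (hlam : 0 ≤ lam) :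
    (TF.values γ z R lam).Nonempty ∧ BddBelow (TF.values γ z R lam) := by
  rw [values_eq]
  rcases hlam.eq_or_lt with h | h
  · subst h
    refine ⟨⟨_, fun _ => 0, H35.adm_zero, by simp, rfl⟩, ⟨TF.U z R, ?_⟩⟩
    rintro t ⟨σ, hσ, hi, rfl⟩
    rw [H35.fun0_zero_int hσ hi]
    linarith
  · obtain ⟨⟨C, hC⟩, hT⟩ := H63.below k z R γ 1 hz hγ one_pos lam h
    obtain ⟨σ, hσ, hi, -⟩ := hT 1 one_pos
    refine ⟨⟨_, σ, hσ, hi, rfl⟩, ⟨C + TF.U z R, ?_⟩⟩
    rintro t ⟨σ, hσ, hi, rfl⟩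
    have := hC σ hσ hi
    linarith

/-- The electronic energy is the infimum `einf` at `τ = 1`. -/
theorem e_eq {k : ℕ} (γ : ℝ) (z : Fin k → ℝ) (R : Fin k → E3) (hz : ∀ i, 0 < z i)
    (hγ : 0 < γ) (lam : ℝ) (hlam : 0 ≤ lam) : TF.e γ z R lam = einf z R γ 1 lam := by
  obtain ⟨hne, hbd⟩ := values_ok γ z R hz hγ lam hlam
  unfold TF.e TF.E einf
  set S : Set ℝ := {t : ℝ | ∃ σ : E3 → ℝ, Adm σ ∧ ∫ x, σ x = lam ∧
    t = fun0 γ 1 0 (nuc z R) σ} with hS
  have e1 : TF.values γ z R lam = (fun t => t + TF.U z R) '' S := by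
    rw [values_eq]
    ext t
    simp only [mem_setOf_eq, mem_image, hS]
    constructor
    · rintro ⟨σ, hσ, hi, rfl⟩
      exact ⟨_, ⟨σ, hσ, hi, rfl⟩, rfl⟩
    · rintro ⟨_, ⟨σ, hσ, hi, rfl⟩, rfl⟩
      exact ⟨σ, hσ, hi, rfl⟩
  have hSne : S.Nonempty := by
    rw [e1] at hne; exact hne.of_image
  have hSbd : BddBelow S := by
    rw [e1] at hbd
    obtain ⟨b, hb⟩ := hbd
    refine ⟨b - TF.U z R, fun t ht => ?_⟩
    have := hb ⟨t, ht, rfl⟩
    simp only at this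
    linarith
  have e2 : sInf (TF.values γ z R lam) = sInf S + TF.U z R := by
    rw [e1]
    have := Monotone.map_csInf_of_continuousAt (f := fun t : ℝ => t + TF.U z R) (A := S)
      (by fun_prop) (fun a b h => by simpa using h) hSne hSbd
    exact this.symm
  rw [e2]; ring

/-- Assembly: monotonicity under dilation. -/
theorem final (hLeg : LegStatement) {k : ℕ} (γ : ℝ) (z : Fin k → ℝ) (R : Fin k → E3)
    (hz : ∀ i, 0 < z i) (hγ : 0 < γ) (lam : ℝ) (hlam : 0 ≤ lam) :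
    MonotoneOn (fun l : ℝ => TF.e γ z (fun i => l • R i) lam) (Ioi 0) := by
  intro l₁ h₁ l₂ h₂ h
  have h₁' : (0 : ℝ) < l₁ := h₁
  have h₂' : (0 : ℝ) < l₂ := h₂
  simp only
  rw [e_eq γ z _ hz hγ lam hlam, e_eq γ z _ hz hγ lam hlam, einf_scl γ z R h₁', einf_scl γ z R h₂']
  exact hLeg k z R γ l₂⁻¹ l₁⁻¹ lam hz hγ (inv_pos.2 h₂') (inv_anti₀ h₁' h) hlam

end Pool.Agent.Lib.MP_405077_mp.H94
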