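import Pool.Agent.Lib.MP_405077_mp.Defs

set_option autoImplicit false

open MeasureTheory Set Filter Topology

namespace Pool.Agent.Lib.MP_405077_mp.H94

open Pool.Agent.Lib.MP_405077_mp

theorem finrank_E3 : Module.finrank ℝ E3 = 3 := by simp [E3]

theorem symm_apply (p : Metric.sphere (0 : E3) 1 × Ioi (0 : ℝ)) :
    (((homeomorphUnitSphereProd E3).symm p : ({0}ᶜ : Set E3)) : E3) = (p.2 : ℝ) • (p.1 : E3) := by
  simp [homeomorphUnitSphereProd]

instance : IsFiniteMeasure sph := by unfold sph; infer_instance

theorem polar_aux_integrable (g : ℝ → ℝ)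
    (hg : Integrable (fun r : Ioi (0 : ℝ) => g r) (Measure.volumeIoiPow 2)) :
    IntegrableOn (fun r : ℝ => r ^ 2 * g r) (Ioi 0) := by
  rw [integrableOn_iff_comap_subtypeVal measurableSet_Ioi]
  rw [Measure.volumeIoiPow, integrable_withDensity_iff_integrable_smul'] at hg
  · refine hg.congr (Eventually.of_forall ?_)
    rintro ⟨x, hx : 0 < x⟩
    simp (disch := positivity) [ENNReal.toReal_ofReal, smul_eq_mul]
  · fun_prop
  · simp

theorem polar_aux_integral (g : ℝ → ℝ) :
    ∫ r : Ioi (0 : ℝ), g r ∂(Measure.volumeIoiPow 2) = ∫ r in Ioi (0 : ℝ), r ^ 2 * g r := by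
  simp only [Measure.volumeIoiPow, ENNReal.ofReal]
  rw [integral_withDensity_eq_integral_smul,
    integral_subtype_comap measurableSet_Ioi fun a ↦ Real.toNNReal (a ^ 2) • g a,
    setIntegral_congr_fun measurableSet_Ioi fun x hx ↦ ?_]
  · rw [NNReal.smul_def, Real.coe_toNNReal _ (pow_nonneg (le_of_lt hx) _), smul_eq_mul]
  · exact (measurable_subtype_coe.pow_const _).real_toNNReal

theorem polar : PolarStatement := by
  constructor
  · intro F hF
    have hmp := (volume : Measure E3).measurePreserving_homeomorphUnitSphereProd
    rw [finrank_E3] at hmp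
    have hemb : MeasurableEmbedding (homeomorphUnitSphereProd E3) :=
      (homeomorphUnitSphereProd E3).measurableEmbedding
    set Φ : Metric.sphere (0 : E3) 1 × Ioi (0 : ℝ) → ℝ :=
      fun p => F ((p.2 : ℝ) • (p.1 : E3)) with hΦ
    have hcomp : ∀ x : ({0}ᶜ : Set E3), Φ (homeomorphUnitSphereProd E3 x) = F x := by
      intro x
      simp only [hΦ]
      rw [← symm_apply, Homeomorph.symm_apply_apply]
    have hint0 : Integrable (fun x : ({0}ᶜ : Set E3) => F x)
        (Measure.comap (↑) (volume : Measure E3)) := by
      have h1 : IntegrableOn F ({0}ᶜ : Set E3) := hF.integrableOn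
      rwa [integrableOn_iff_comap_subtypeVal (measurableSet_singleton _).compl] at h1
    have hint : Integrable Φ (sph.prod (Measure.volumeIoiPow 2)) := by
      have h2 := hmp.integrable_comp_emb (g := Φ) hemb
      have e : Φ ∘ (homeomorphUnitSphereProd E3) = fun x : ({0}ᶜ : Set E3) => F x :=
        funext hcomp
      rw [e] at h2
      exact h2.1 hint0
    constructor
    · have h3 := hint.prod_right_ae
      filter_upwards [h3] with ω hω
      exact polar_aux_integrable (fun r => F (r • (ω : E3))) hω
    · calc ∫ z, F z = ∫ x : ({0}ᶜ : Set E3), F x ∂(Measure.comap (↑) (volume : Measure E3)) := by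
            rw [integral_subtype_comap (measurableSet_singleton _).compl fun x ↦ F x,
              restrict_compl_singleton]
        _ = ∫ p, Φ p ∂(sph.prod (Measure.volumeIoiPow 2)) := by
            have h4 := hmp.integral_comp hemb Φ
            refine Eq.trans ?_ h4
            exact integral_congr_ae (Eventually.of_forall fun x => (hcomp x).symm)
        _ = ∫ ω, ∫ r, Φ (ω, r) ∂(Measure.volumeIoiPow 2) ∂sph := integral_prod _ hint
        _ = _ := by
            congr 1
            funext ω
            exact polar_aux_integral (fun r => F (r • (ω : E3)))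
  · have h1 : sph.real univ = 3 * (volume : Measure E3).real (Metric.ball 0 1) := by
      unfold sph
      rw [Measure.toSphere_real_apply_univ, finrank_E3]
      norm_num
    rw [h1]
    have h2 : (volume : Measure E3).real (Metric.ball (0 : E3) 1) = Real.pi * 4 / 3 := by
      rw [measureReal_def, EuclideanSpace.volume_ball_fin_three]
      rw [ENNReal.ofReal_one, one_pow, one_mul, ENNReal.toReal_ofReal (by positivity)]
    rw [h2]; ring

end Pool.Agent.Lib.MP_405077_mp.H94
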