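import Pool.Agent.Lib.MP_405077_mp.H94.Sym
import Pool.Agent.Lib.MP_405077_mp.H94.Polar

set_option autoImplicit false

open MeasureTheory Set Filter Topology

namespace Pool.Agent.Lib.MP_405077_mp.H94

open Pool.Agent.Lib.MP_405077_mp

/-- `|z|^{-2}` on the unit ball. -/
noncomputable def kap (z : E3) : ℝ := (Metric.ball (0 : E3) 1).indicator (fun z => (‖z‖⁻¹) ^ 2) z

theorem kap_nonneg (z : E3) : 0 ≤ kap z := by
  unfold kap
  exact indicator_nonneg (fun z _ => by positivity) z

theorem integrable_kap : Integrable kap := by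
  have h : IntegrableOn (fun x : E3 => (fun t : ℝ => (t⁻¹) ^ 2) ‖x‖) (Metric.ball (0 : E3) 1) := by
    rw [integrableOn_fun_norm_addHaar (volume : Measure E3) (f := fun t : ℝ => (t⁻¹) ^ 2),
      finrank_E3]
    have : IntegrableOn (fun _ : ℝ => (1 : ℝ)) (Ioo 0 1) := by
      simp [integrableOn_const_iff]
    refine this.congr_fun (fun y hy => ?_) measurableSet_Ioo
    have hy0 : y ≠ 0 := ne_of_gt hy.1
    simp only [smul_eq_mul]
    field_simp
  exact (integrable_indicator_iff Metric.isOpen_ball.measurableSet).2 h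

theorem measurable_kap : Measurable kap := by
  unfold kap
  exact Measurable.indicator (by fun_prop) Metric.isOpen_ball.measurableSet

/-- `|q(y)| / |x-y|^2 ≤ M κ(x-y) + |q(y)|`. -/
theorem sq_kernel_le {q : E3 → ℝ} {M : ℝ} (hM : ∀ x, |q x| ≤ M) (x y : E3) :
    |q y| * (‖x - y‖⁻¹) ^ 2 ≤ M * kap (x - y) + |q y| := by
  have hM0 : 0 ≤ M := (abs_nonneg _).trans (hM x)
  by_cases h : x - y ∈ Metric.ball (0 : E3) 1
  · unfold kap
    rw [indicator_of_mem h]
    have h1 := mul_le_mul_of_nonneg_right (hM y) (by positivity : 0 ≤ (‖x - y‖⁻¹) ^ 2)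
    have h2 := abs_nonneg (q y)
    linarith
  · have h1 : 1 ≤ ‖x - y‖ := by
      simpa [Metric.mem_ball, dist_zero_right] using h
    have h2 : (‖x - y‖⁻¹) ^ 2 ≤ 1 := by
      have : ‖x - y‖⁻¹ ≤ 1 := inv_le_one_of_one_le₀ h1
      exact pow_le_one₀ (by positivity) this
    have h3 : |q y| * (‖x - y‖⁻¹) ^ 2 ≤ |q y| * 1 := mul_le_mul_of_nonneg_left h2 (abs_nonneg _)
    have h4 : 0 ≤ M * kap (x - y) := mul_nonneg hM0 (kap_nonneg _)
    linarith

theorem integrable_sq_kernel {q : E3 → ℝ} (hq : BC q) (x : E3) :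
    Integrable (fun y => |q y| * (‖x - y‖⁻¹) ^ 2) := by
  obtain ⟨M, hM⟩ := hq.bdd
  have h1 : Integrable (fun y => M * kap (x - y) + |q y|) :=
    ((integrable_kap.comp_sub_left x).const_mul M).add (BC_integrable hq).abs
  refine h1.mono' ?_ (Eventually.of_forall fun y => ?_)
  · have := hq.meas
    exact (Measurable.aestronglyMeasurable (by fun_prop))
  · rw [Real.norm_of_nonneg (by positivity)]
    exact sq_kernel_le hM x y

theorem sq_kernel_bound {q : E3 → ℝ} (hq : BC q) :
    ∃ C : ℝ, ∀ x, ∫ y, |q y| * (‖x - y‖⁻¹) ^ 2 ≤ C := by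
  obtain ⟨M, hM⟩ := hq.bdd
  refine ⟨M * (∫ z, kap z) + ∫ y, |q y|, fun x => ?_⟩
  have h1 : Integrable (fun y => M * kap (x - y)) := (integrable_kap.comp_sub_left x).const_mul M
  have h2 : Integrable (fun y => |q y|) := (BC_integrable hq).abs
  calc ∫ y, |q y| * (‖x - y‖⁻¹) ^ 2 ≤ ∫ y, (M * kap (x - y) + |q y|) :=
        integral_mono (integrable_sq_kernel hq x) (h1.add h2) (fun y => sq_kernel_le hM x y)
    _ = _ := by
        rw [integral_add h1 h2, integral_const_mul, integral_sub_left_eq_self]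

theorem gradient_continuous {u : E3 → ℝ} (hu : ContDiff ℝ 1 u) : Continuous (gradient u) := by
  have : gradient u = fun x => (InnerProductSpace.toDual ℝ E3).symm (fderiv ℝ u x) := rfl
  rw [this]
  exact (LinearIsometryEquiv.continuous _).comp (hu.continuous_fderiv one_ne_zero)

theorem gradient_zero {u : E3 → ℝ} {R : ℝ} (hu : ∀ x, R < ‖x‖ → u x = 0) {x : E3}
    (hx : R < ‖x‖) : gradient u x = 0 := by
  have : u =ᶠ[𝓝 x] fun _ => (0 : ℝ) := by
    have ho : IsOpen {y : E3 | R < ‖y‖} := isOpen_lt continuous_const continuous_norm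
    filter_upwards [ho.mem_nhds hx] with y hy
    exact hu y hy
  rw [gradient, this.fderiv_eq]; simp

theorem exists_radius {u : E3 → ℝ} (hs : HasCompactSupport u) :
    ∃ R : ℝ, 0 < R ∧ ∀ x, R < ‖x‖ → u x = 0 := by
  obtain ⟨R, hR⟩ := hs.isCompact.isBounded.subset_closedBall (0 : E3)
  refine ⟨max R 1, lt_of_lt_of_le one_pos (le_max_right _ _), fun x hx => ?_⟩
  by_contra hne
  have h1 : x ∈ tsupport u := subset_tsupport u hne
  have h2 := hR h1
  rw [Metric.mem_closedBall, dist_zero_right] at h2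
  exact absurd (lt_of_le_of_lt (le_max_left R 1) hx) (not_lt.2 h2)

theorem hasGradientAt_of_contDiff {u : E3 → ℝ} (hu : ContDiff ℝ 1 u) (x : E3) :
    HasGradientAt u (gradient u x) x :=
  ((hu.differentiable (by norm_num)) x).hasGradientAt

/-- The vector kernel against a continuous compactly supported vector field. -/
theorem abs_inner_le_sq (a b : E3) (x y : E3) (h : ‖a‖ = ‖x - y‖) :
    |inner ℝ a b / ‖x - y‖ ^ 3| ≤ ‖b‖ * (‖x - y‖⁻¹) ^ 2 := by
  rcases eq_or_ne (‖x - y‖) 0 with h0 | h0
  · simp [h0]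
  rw [abs_div, abs_of_nonneg (by positivity : 0 ≤ ‖x - y‖ ^ 3)]
  have h1 : |inner ℝ a b| ≤ ‖x - y‖ * ‖b‖ := by rw [← h]; exact abs_real_inner_le_norm a b
  have hp : 0 < ‖x - y‖ := lt_of_le_of_ne (norm_nonneg _) (Ne.symm h0)
  rw [div_le_iff₀ (by positivity)]
  calc |inner ℝ a b| ≤ ‖x - y‖ * ‖b‖ := h1
    _ = ‖b‖ * (‖x - y‖⁻¹) ^ 2 * ‖x - y‖ ^ 3 := by field_simp

/-- Representation of a `C^1` compactly supported function (formula R1). -/
theorem repr (hPol : PolarStatement) {u : E3 → ℝ} (hu : ContDiff ℝ 1 u)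
    (hs : HasCompactSupport u) (y : E3) :
    Integrable (fun x => inner ℝ (y - x) (gradient u x) / ‖x - y‖ ^ 3) ∧
    ∫ x, inner ℝ (y - x) (gradient u x) / ‖x - y‖ ^ 3 = 4 * Real.pi * u y := by
  obtain ⟨R, hR0, hR⟩ := exists_radius hs
  have hgc := gradient_continuous hu
  have hgz : ∀ x, R < ‖x‖ → gradient u x = 0 := fun x hx => gradient_zero hR hx
  have hnBC : BC (fun x => ‖gradient u x‖) :=
    BC_of_cont hgc.norm (r := R) (fun x hx => by rw [hgz x hx, norm_zero])
  have hint : Integrable (fun x => inner ℝ (y - x) (gradient u x) / ‖x - y‖ ^ 3) := by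
    have h1 := integrable_sq_kernel hnBC y
    refine h1.mono' ?_ (Eventually.of_forall fun x => ?_)
    · have := hgc.measurable
      exact (Measurable.aestronglyMeasurable (by fun_prop))
    · rw [Real.norm_eq_abs, abs_norm, norm_sub_rev y x]
      exact abs_inner_le_sq _ _ x y (norm_sub_rev y x)
  refine ⟨hint, ?_⟩
  -- translate
  set F : E3 → ℝ := fun z => inner ℝ (-z) (gradient u (y + z)) / ‖z‖ ^ 3 with hF
  have hFeq : ∀ z, F z = (fun x => inner ℝ (y - x) (gradient u x) / ‖x - y‖ ^ 3) (y + z) := by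
    intro z
    simp only [hF]
    congr 2
    · congr 1; abel
    · abel_nf
  have hFint : Integrable F := by
    have := hint.comp_add_left y
    exact this.congr (Eventually.of_forall fun z => (hFeq z).symm)
  have hFi : ∫ z, F z = ∫ x, inner ℝ (y - x) (gradient u x) / ‖x - y‖ ^ 3 := by
    rw [← integral_add_left_eq_self (μ := (volume : Measure E3))
      (fun x => inner ℝ (y - x) (gradient u x) / ‖x - y‖ ^ 3) y]
    exact integral_congr_ae (Eventually.of_forall hFeq)
  obtain ⟨hPol1, hPol2⟩ := hPol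
  obtain ⟨h1, h2⟩ := hPol1 F hFint
  rw [← hFi, h2]
  have hray : ∀ ω : Metric.sphere (0 : E3) 1, ∀ r : ℝ, 0 < r →
      r ^ 2 * F (r • (ω : E3)) = - inner ℝ (ω : E3) (gradient u (y + r • (ω : E3))) := by
    intro ω r hr
    have hω : ‖(ω : E3)‖ = 1 := norm_eq_of_mem_sphere ω
    simp only [hF]
    rw [norm_smul, hω, mul_one, Real.norm_of_nonneg hr.le, inner_neg_left, inner_smul_left]
    simp only [conj_trivial]
    field_simp
  have hae : ∀ᵐ (ω : Metric.sphere (0 : E3) 1) ∂sph,
      (∫ r in Ioi (0 : ℝ), r ^ 2 * F (r • (ω : E3))) = u y := by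
    filter_upwards [h1] with ω hω
    have hd : ∀ r : ℝ, HasDerivAt (fun r : ℝ => - u (y + r • (ω : E3)))
        (- inner ℝ (ω : E3) (gradient u (y + r • (ω : E3)))) r := by
      intro r
      have hg := hasGradientAt_of_contDiff hu (y + r • (ω : E3))
      rw [hasGradientAt_iff_hasFDerivAt] at hg
      have hl : HasDerivAt (fun r : ℝ => y + r • (ω : E3)) (ω : E3) r := by
        simpa using ((hasDerivAt_id r).smul_const (ω : E3)).const_add y
      have := hg.comp_hasDerivAt r hl
      have h3 := this.neg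
      rw [InnerProductSpace.toDual_apply_apply, real_inner_comm] at h3
      exact h3
    have hlim : Tendsto (fun r : ℝ => - u (y + r • (ω : E3))) atTop (𝓝 0) := by
      have : ∀ᶠ r : ℝ in atTop, - u (y + r • (ω : E3)) = 0 := by
        filter_upwards [eventually_gt_atTop (R + ‖y‖)] with r hr
        have hω : ‖(ω : E3)‖ = 1 := norm_eq_of_mem_sphere ω
        have hr0 : 0 < r := lt_of_le_of_lt (by positivity) hr
        have h4 : r - ‖y‖ ≤ ‖y + r • (ω : E3)‖ := by
          have h5 : ‖r • (ω : E3)‖ ≤ ‖y + r • (ω : E3)‖ + ‖y‖ := by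
            calc ‖r • (ω : E3)‖ = ‖(y + r • (ω : E3)) - y‖ := by congr 1; abel
              _ ≤ _ := norm_sub_le _ _
          rw [norm_smul, hω, mul_one, Real.norm_of_nonneg hr0.le] at h5
          linarith
        rw [hR _ (by linarith), neg_zero]
      exact tendsto_const_nhds.congr' (this.mono fun r hr => hr.symm)
    have hI : IntegrableOn (fun r : ℝ => - inner ℝ (ω : E3) (gradient u (y + r • (ω : E3))))
        (Ioi 0) := hω.congr_fun (fun r hr => hray ω r hr) measurableSet_Ioi
    have h6 := integral_Ioi_of_hasDerivAt_of_tendsto (f := fun r : ℝ => - u (y + r • (ω : E3)))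
      (f' := fun r : ℝ => - inner ℝ (ω : E3) (gradient u (y + r • (ω : E3)))) (a := 0) (m := 0)
      (hd 0).continuousAt.continuousWithinAt (fun r _ => hd r) hI hlim
    rw [setIntegral_congr_fun measurableSet_Ioi (fun r hr => hray ω r hr), h6]
    simp
  rw [integral_congr_ae hae, integral_const, hPol2, smul_eq_mul]

theorem green (hPol : PolarStatement) (hP : PotStatement) : GreenStatement := by
  intro q u hq hu hs
  obtain ⟨R, hR0, hR⟩ := exists_radius hs
  have hgc := gradient_continuous hu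
  have hgz : ∀ x, R < ‖x‖ → gradient u x = 0 := fun x hx => gradient_zero hR hx
  have hnBC : BC (fun x => ‖gradient u x‖) :=
    BC_of_cont hgc.norm (r := R) (fun x hx => by rw [hgz x hx, norm_zero])
  have e1 : ∀ x, inner ℝ (field q x) (gradient u x) =
      ∫ y, q y * (inner ℝ (y - x) (gradient u x) / ‖x - y‖ ^ 3) := by
    intro x
    unfold field
    rw [real_inner_comm, ← integral_inner ((hP q hq).2.1 x)]
    congr 1; funext y
    rw [inner_smul_right, real_inner_comm]; ring
  simp only [e1]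
  have hprod : Integrable (fun p : E3 × E3 =>
      q p.2 * (inner ℝ (p.2 - p.1) (gradient u p.1) / ‖p.1 - p.2‖ ^ 3))
      (volume.prod volume) := by
    have hm : Measurable (fun p : E3 × E3 =>
        q p.2 * (inner ℝ (p.2 - p.1) (gradient u p.1) / ‖p.1 - p.2‖ ^ 3)) := by
      have h1 := hgc.measurable
      have h2 := hq.meas
      fun_prop
    obtain ⟨C, hC⟩ := sq_kernel_bound hq
    rw [integrable_prod_iff hm.aestronglyMeasurable]
    have hb : ∀ x y, ‖q y * (inner ℝ (y - x) (gradient u x) / ‖x - y‖ ^ 3)‖ ≤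
        ‖gradient u x‖ * (|q y| * (‖x - y‖⁻¹) ^ 2) := by
      intro x y
      rw [norm_mul, Real.norm_eq_abs, Real.norm_eq_abs]
      have := mul_le_mul_of_nonneg_left
        (abs_inner_le_sq (y - x) (gradient u x) x y (norm_sub_rev y x)) (abs_nonneg (q y))
      calc _ ≤ _ := this
        _ = _ := by ring
    have hix : ∀ x, Integrable (fun y => q y * (inner ℝ (y - x) (gradient u x) / ‖x - y‖ ^ 3)) := by
      intro x
      refine ((integrable_sq_kernel hq x).const_mul ‖gradient u x‖).mono' ?_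
        (Eventually.of_forall fun y => hb x y)
      exact (hm.comp measurable_prodMk_left).aestronglyMeasurable
    refine ⟨Eventually.of_forall hix, ?_⟩
    have hdom : Integrable (fun x => ‖gradient u x‖ * C) := (BC_integrable hnBC).mul_const C
    refine hdom.mono' ?_ (Eventually.of_forall fun x => ?_)
    · exact (hm.norm.aestronglyMeasurable.integral_prod_right')
    · rw [Real.norm_of_nonneg (integral_nonneg fun y => norm_nonneg _)]
      calc ∫ y, ‖q y * (inner ℝ (y - x) (gradient u x) / ‖x - y‖ ^ 3)‖ ≤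
            ∫ y, ‖gradient u x‖ * (|q y| * (‖x - y‖⁻¹) ^ 2) :=
            integral_mono (hix x).norm ((integrable_sq_kernel hq x).const_mul _) (hb x)
        _ = ‖gradient u x‖ * ∫ y, |q y| * (‖x - y‖⁻¹) ^ 2 := integral_const_mul _ _
        _ ≤ ‖gradient u x‖ * C := mul_le_mul_of_nonneg_left (hC x) (norm_nonneg _)
  rw [integral_integral_swap hprod]
  have e2 : ∀ y, ∫ x, q y * (inner ℝ (y - x) (gradient u x) / ‖x - y‖ ^ 3) =
      4 * Real.pi * (q y * u y) := by
    intro y
    rw [integral_const_mul, (repr hPol hu hs y).2]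
    ring
  simp only [e2]
  rw [integral_const_mul]

end Pool.Agent.Lib.MP_405077_mp.H94
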