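import Pool.Agent.Lib.MP_405077_mp.H94.Basic

set_option autoImplicit false

open MeasureTheory Set Filter Topology

namespace Pool.Agent.Lib.MP_405077_mp.H94

open Pool.Agent.Lib.MP_405077_mp

/-- composition of a `C^1` function with a function having a gradient. -/
theorem hasGradientAt_comp {h : ℝ → ℝ} {φ : E3 → ℝ} {x g : E3} {a : ℝ}
    (hh : HasDerivAt h a (φ x)) (hφ : HasGradientAt φ g x) :
    HasGradientAt (fun y => h (φ y)) (a • g) x := by
  rw [hasGradientAt_iff_hasFDerivAt] at hφ ⊢
  have := hh.comp_hasFDerivAt x hφ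
  simpa [map_smul, Function.comp_def] using this

theorem hasGradientAt_mul {φ ψ : E3 → ℝ} {x g k : E3}
    (hφ : HasGradientAt φ g x) (hψ : HasGradientAt ψ k x) :
    HasGradientAt (fun y => φ y * ψ y) (φ x • k + ψ x • g) x := by
  rw [hasGradientAt_iff_hasFDerivAt] at hφ hψ ⊢
  have := hφ.mul hψ
  rw [map_add, map_smul, map_smul]
  exact this

theorem level (hP : PotStatement) (hS : SymStatement) (hG : GreenStatement)
    (hK : KernStatement) : LevelStatement := by
  intro m ρ h r hm hρ hm0 hρ0 hh hmono hle hzero hr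
  set q : E3 → ℝ := fun x => m x - ρ x with hq
  have hqBC : BC q := BC_sub hm hρ
  have hφq : ∀ x, pot m x - pot ρ x = pot q x := fun x => (pot_sub hP hm hρ x).symm
  simp only [hφq]
  set φ : E3 → ℝ := pot q with hφ
  obtain ⟨-, -, ⟨C, hC⟩, hφC1, hφg⟩ := hP q hqBC
  rw [← hφ] at hC hφC1 hφg
  have hφcont : Continuous φ := hφC1.continuous
  have hfieldcont : Continuous (field q) := by
    have : field q = fun x => (InnerProductSpace.toDual ℝ E3).symm (fderiv ℝ φ x) := by
      funext x
      exact (hφg x).gradient.symm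
    rw [this]
    exact (LinearIsometryEquiv.continuous _).comp (hφC1.continuous_fderiv one_ne_zero)
  have hh0 : ∀ s, 0 ≤ h s := by
    intro s
    rcases le_total s r with hs | hs
    · rw [hzero s hs]
    · rw [← hzero r le_rfl]; exact hmono hs
  -- bound for the support
  have hsupp : ∀ x, C / r < ‖x‖ → φ x < r := by
    intro x hx
    by_contra hcon
    push Not at hcon
    have h1 := hC x
    have h2 : r * (1 + ‖x‖) ≤ |φ x| * (1 + ‖x‖) :=
      mul_le_mul_of_nonneg_right (hcon.trans (le_abs_self _)) (by positivity)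
    rw [div_lt_iff₀ hr] at hx
    nlinarith
  have hdcont : Continuous (deriv h) := hh.continuous_deriv le_rfl
  have hder : ∀ s, HasDerivAt h (deriv h s) s := fun s =>
    (hh.differentiable (by norm_num) s).hasDerivAt
  have hd0 : ∀ s, 0 ≤ deriv h s := fun s => hmono.deriv_nonneg
  have hdz : ∀ s, s < r → deriv h s = 0 := by
    intro s hs
    have : h =ᶠ[𝓝 s] fun _ => (0 : ℝ) := by
      filter_upwards [Iio_mem_nhds hs] with t ht
      exact hzero t (le_of_lt ht)
    rw [this.deriv_eq]; simp
  -- u, G, v, H
  set u : E3 → ℝ := fun x => h (φ x) with hu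
  set G : E3 → ℝ := fun x => deriv h (φ x) with hGdef
  have huC1 : ContDiff ℝ 1 u := hh.comp hφC1
  have hus : HasCompactSupport u := by
    refine HasCompactSupport.intro (isCompact_closedBall (0 : E3) (C / r)) (fun x hx => ?_)
    have : C / r < ‖x‖ := by simpa [Metric.mem_closedBall, dist_zero_right] using hx
    exact hzero _ (hsupp x this).le
  have hug : ∀ x, HasGradientAt u (G x • field q x) x := fun x =>
    hasGradientAt_comp (hder _) (hφg x)
  have hGcont : Continuous G := hdcont.comp hφcont
  have hGz : ∀ x, C / r < ‖x‖ → G x = 0 := fun x hx => hdz _ (hsupp x hx)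
  have hGBC : BC G := BC_of_cont hGcont hGz
  have hG0 : ∀ x, 0 ≤ G x := fun x => hd0 _
  set v : E3 → ℝ := pot G with hv
  obtain ⟨-, -, -, hvC1, hvg⟩ := hP G hGBC
  rw [← hv] at hvC1 hvg
  have hv0 : ∀ x, 0 ≤ v x := fun x => pot_nonneg hG0 x
  have hvcont : Continuous v := hvC1.continuous
  -- primitive of h
  set H : ℝ → ℝ := fun s => ∫ t in (0 : ℝ)..s, h t with hH
  have hHder : ∀ s, HasDerivAt H (h s) s := fun s =>
    (hh.continuous.integral_hasStrictDerivAt 0 s).hasDerivAt
  have hHC1 : ContDiff ℝ 1 H := by
    rw [contDiff_one_iff_deriv]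
    refine ⟨fun s => (hHder s).differentiableAt, ?_⟩
    have : deriv H = h := funext fun s => (hHder s).deriv
    rw [this]; exact hh.continuous
  have hHz : ∀ s, s ≤ r → H s = 0 := by
    intro s hs
    rw [hH]
    refine intervalIntegral.integral_zero_ae (Eventually.of_forall ?_)
    intro t ht
    apply hzero
    rcases le_total 0 s with h0 | h0
    · rw [uIoc_of_le h0] at ht; exact ht.2.trans hs
    · rw [uIoc_of_ge h0] at ht; exact ht.2.trans hr.le
  have hH0 : ∀ s, 0 ≤ H s := by
    intro s
    rcases le_total s r with hs | hs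
    · rw [hHz s hs]
    · rw [hH]
      exact intervalIntegral.integral_nonneg (hr.le.trans hs) (fun t _ => hh0 t)
  -- (1) the kernel inequality
  set A : E3 → ℝ := fun x => G x * ‖field q x‖ ^ 2 with hA
  have hABC : BC A := BC_mul_cont hGBC (hfieldcont.norm.pow 2)
  have hA0 : ∀ x, 0 ≤ A x := fun x => mul_nonneg (hG0 x) (by positivity)
  have hPA := hP A hABC
  have hPG := hP G hGBC
  have hinner : ∀ x, ‖∫ y, kerB (x - y) (gradient u x) (gradient u y)‖ ≤
      1 / 2 * (A x * v x + G x * pot A x) := by
    intro x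
    have hb : ∀ y, ‖kerB (x - y) (gradient u x) (gradient u y)‖ ≤
        1 / 2 * (A x * (G y / ‖x - y‖) + G x * (A y / ‖x - y‖)) := by
      intro y
      rw [(hug x).gradient, (hug y).gradient]
      have e1 : kerB (x - y) (G x • field q x) (G y • field q y) =
          G x * G y * kerB (x - y) (field q x) (field q y) := by
        unfold kerB
        simp only [inner_smul_left, inner_smul_right, conj_trivial]
        ring
      rw [e1, Real.norm_eq_abs, abs_mul, abs_of_nonneg (mul_nonneg (hG0 x) (hG0 y))]
      have e2 := kerB_abs_le (x - y) (field q x) (field q y)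
      have e3 := mul_le_mul_of_nonneg_left e2 (mul_nonneg (hG0 x) (hG0 y))
      refine e3.trans (le_of_eq ?_)
      simp only [hA]
      by_cases hxy : ‖x - y‖ = 0
      · simp [hxy]
      · field_simp
    have hint : Integrable (fun y => 1 / 2 * (A x * (G y / ‖x - y‖) + G x * (A y / ‖x - y‖))) := by
      have i1 := (hPG.1 x).const_mul (A x)
      have i2 := (hPA.1 x).const_mul (G x)
      exact (i1.add i2).const_mul _
    refine (norm_integral_le_of_norm_le hint (Eventually.of_forall hb)).trans (le_of_eq ?_)
    rw [integral_const_mul, integral_add ((hPG.1 x).const_mul _) ((hPA.1 x).const_mul _),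
      integral_const_mul, integral_const_mul]
    rfl
  have hAv : BC (fun x => A x * v x) := BC_mul_cont hABC hvcont
  have hpAcont : Continuous (pot A) := hPA.2.2.2.1.continuous
  have hGpA : BC (fun x => G x * pot A x) := BC_mul_cont hGBC hpAcont
  have hmain1 : 12 * Real.pi * ∫ x, u x ^ 2 ≤ ∫ x, A x * v x := by
    have h1 := hK u huC1 hus
    rw [← h1]
    have hint : Integrable (fun x => 1 / 2 * (A x * v x + G x * pot A x)) :=
      ((BC_integrable hAv).add (BC_integrable hGpA)).const_mul _
    have h2 := norm_integral_le_of_norm_le hint (Eventually.of_forall hinner)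
    have h3 : ∫ x, 1 / 2 * (A x * v x + G x * pot A x) = ∫ x, A x * v x := by
      rw [integral_const_mul, integral_add (BC_integrable hAv) (BC_integrable hGpA)]
      have : ∫ x, G x * pot A x = ∫ x, A x * v x := hS G A hGBC hABC
      rw [this]; ring
    rw [h3] at h2
    exact (le_abs_self _).trans h2
  -- (2) Green's identities
  set w : E3 → ℝ := fun x => v x * u x with hw
  have hwC1 : ContDiff ℝ 1 w := hvC1.mul huC1
  have hws : HasCompactSupport w := hus.mul_left
  have hg1 := hG q w hqBC hwC1 hws
  have hHφC1 : ContDiff ℝ 1 (fun x => H (φ x)) := hHC1.comp hφC1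
  have hHφs : HasCompactSupport (fun x => H (φ x)) := by
    refine HasCompactSupport.intro (isCompact_closedBall (0 : E3) (C / r)) (fun x hx => ?_)
    have : C / r < ‖x‖ := by simpa [Metric.mem_closedBall, dist_zero_right] using hx
    exact hHz _ (hsupp x this).le
  have hg2 := hG G (fun x => H (φ x)) hGBC hHφC1 hHφs
  have hfGcont : Continuous (field G) := by
    have : field G = fun x => (InnerProductSpace.toDual ℝ E3).symm (fderiv ℝ v x) := by
      funext x
      exact (hvg x).gradient.symm
    rw [this]
    exact (LinearIsometryEquiv.continuous _).comp (hvC1.continuous_fderiv one_ne_zero)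
  have hgw : ∀ x, gradient w x = v x • (G x • field q x) + u x • field G x := fun x =>
    (hasGradientAt_mul (hvg x) (hug x)).gradient
  have hgH : ∀ x, gradient (fun x => H (φ x)) x = u x • field q x := fun x =>
    (hasGradientAt_comp (hHder _) (hφg x)).gradient
  have hucont : Continuous u := huC1.continuous
  have huBC : BC u := BC_of_cont hucont (r := C / r) (fun x hx => hzero _ (hsupp x hx).le)
  have hcross : BC (fun x => u x * inner ℝ (field q x) (field G x)) :=
    BC_mul_cont huBC (hfieldcont.inner hfGcont)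
  have hmain2 : ∫ x, A x * v x = 4 * Real.pi * ((∫ x, q x * w x) - ∫ x, G x * H (φ x)) := by
    have e1 : ∀ x, inner ℝ (field q x) (gradient w x) =
        A x * v x + u x * inner ℝ (field q x) (field G x) := by
      intro x
      rw [hgw x, inner_add_right, inner_smul_right, inner_smul_right, inner_smul_right,
        real_inner_self_eq_norm_sq]
      simp only [hA]
      ring
    have e2 : ∀ x, inner ℝ (field G x) (gradient (fun x => H (φ x)) x) =
        u x * inner ℝ (field q x) (field G x) := by
      intro x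
      rw [hgH x, inner_smul_right, real_inner_comm]
    simp only [e1] at hg1
    simp only [e2] at hg2
    rw [integral_add (BC_integrable hAv) (BC_integrable hcross)] at hg1
    rw [hg2] at hg1
    linarith
  -- (3) conclusion
  have hmv : BC (fun x => m x * v x) := BC_mul_cont hm hvcont
  have hmw : BC (fun x => m x * w x) := BC_mul_cont hm hwC1.continuous
  have hρw : BC (fun x => ρ x * w x) := BC_mul_cont hρ hwC1.continuous
  have hρv : BC (fun x => ρ x * v x) := BC_mul_cont hρ hvcont
  have hq1 : ∫ x, q x * w x = (∫ x, m x * w x) - ∫ x, ρ x * w x := by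
    rw [← integral_sub (BC_integrable hmw) (BC_integrable hρw)]
    congr 1; funext x; simp only [hq]; ring
  have hq2 : ∫ x, m x * w x ≤ ∫ x, m x * v x := by
    refine integral_mono (BC_integrable hmw) (BC_integrable hmv) (fun x => ?_)
    refine mul_le_mul_of_nonneg_left ?_ (hm0 x)
    simp only [hw]
    exact mul_le_of_le_one_right (hv0 x) (hle _)
  have hpmcont : Continuous (pot m) := (hP m hm).2.2.2.1.continuous
  have hpρcont : Continuous (pot ρ) := (hP ρ hρ).2.2.2.1.continuous
  have hGφ : BC (fun x => G x * φ x) := BC_mul_cont hGBC hφcont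
  have hGρ : BC (fun x => G x * pot ρ x) := BC_mul_cont hGBC hpρcont
  have hq3 : ∫ x, m x * v x = (∫ x, G x * φ x) + ∫ x, ρ x * v x := by
    have e1 : ∫ x, m x * v x = ∫ x, G x * pot m x := hS m G hm hGBC
    have e2 : ∫ x, ρ x * v x = ∫ x, G x * pot ρ x := hS ρ G hρ hGBC
    rw [e1, e2, ← integral_add (BC_integrable hGφ) (BC_integrable hGρ)]
    congr 1; funext x
    have := hφq x
    have h' : pot m x = φ x + pot ρ x := by linarith
    rw [h']; ring
  set ρ' : E3 → ℝ := fun x => (1 - h (φ x)) * ρ x with hρ'
  have hρ'BC : BC ρ' := by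
    have := BC_mul_cont hρ (continuous_const.sub hucont : Continuous fun x => (1 : ℝ) - u x)
    have e : ρ' = fun x => ρ x * (1 - u x) := by
      funext x; simp only [hρ', hu]; ring
    rw [e]; exact this
  have hq4 : (∫ x, ρ x * v x) - ∫ x, ρ x * w x = ∫ y, G y * pot ρ' y := by
    rw [← hS ρ' G hρ'BC hGBC, ← integral_sub (BC_integrable hρv) (BC_integrable hρw)]
    congr 1; funext x; simp only [hρ', hw, hu, hv]; ring
  have hq5 : 0 ≤ ∫ x, G x * H (φ x) :=
    integral_nonneg (fun x => mul_nonneg (hG0 x) (hH0 _))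
  have hpi := Real.pi_pos
  have hfin : 12 * Real.pi * ∫ x, u x ^ 2 ≤
      4 * Real.pi * ((∫ x, q x * w x) - ∫ x, G x * H (φ x)) := by
    rw [← hmain2]; exact hmain1
  have hfin2 : 3 * ∫ x, u x ^ 2 ≤ (∫ x, q x * w x) - ∫ x, G x * H (φ x) := by
    have : 4 * Real.pi * (3 * ∫ x, u x ^ 2) ≤
        4 * Real.pi * ((∫ x, q x * w x) - ∫ x, G x * H (φ x)) := by
      calc _ = 12 * Real.pi * ∫ x, u x ^ 2 := by ring
        _ ≤ _ := hfin
    exact le_of_mul_le_mul_left this (by positivity)
  change 3 * ∫ x, u x ^ 2 ≤ (∫ x, G x * φ x) + ∫ y, G y * pot ρ' y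
  rw [← hq4]
  linarith

end Pool.Agent.Lib.MP_405077_mp.H94
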