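import Pool.Agent.Lib.MP_405077_mp.H94.Basic

set_option autoImplicit false

open MeasureTheory Set Filter Topology

namespace Pool.Agent.Lib.MP_405077_mp.H94

open Pool.Agent.Lib.MP_405077_mp

theorem BC_abs {f : E3 → ℝ} (hf : BC f) : BC (fun x => |f x|) := by
  obtain ⟨M, hM⟩ := hf.bdd
  obtain ⟨r, hr⟩ := hf.supp
  exact ⟨hf.meas.abs, ⟨M, fun x => by simpa using hM x⟩, ⟨r, fun x hx => by simp [hr x hx]⟩⟩

theorem BC_const_mul {f : E3 → ℝ} (hf : BC f) (c : ℝ) : BC (fun x => c * f x) := by
  have := BC_mul_cont hf (continuous_const : Continuous fun _ : E3 => c)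
  simpa [mul_comm] using this

theorem BC_add {f g : E3 → ℝ} (hf : BC f) (hg : BC g) : BC (fun x => f x + g x) := by
  have := BC_sub hf (BC_const_mul hg (-1))
  simpa using this

/-- Absolute integrability of the Coulomb double integral of bounded densities. -/
theorem integrable_prod {f g : E3 → ℝ} (hP : PotStatement) (hf : BC f) (hg : BC g) :
    Integrable (fun p : E3 × E3 => f p.1 * (g p.2 / ‖p.1 - p.2‖)) (volume.prod volume) := by
  have hmeas : Measurable (fun p : E3 × E3 => f p.1 * (g p.2 / ‖p.1 - p.2‖)) := by
    have h1 := hf.meas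
    have h2 := hg.meas
    fun_prop
  rw [integrable_prod_iff hmeas.aestronglyMeasurable]
  constructor
  · exact Eventually.of_forall (fun x => ((hP g hg).1 x).const_mul (f x))
  · have e : (fun x => ∫ y, ‖f x * (g y / ‖x - y‖)‖) =
        fun x => |f x| * pot (fun y => |g y|) x := by
      funext x
      unfold pot
      rw [← integral_const_mul]
      congr 1
      funext y
      rw [norm_mul, norm_div, norm_norm, Real.norm_eq_abs, Real.norm_eq_abs]
    simp only [] at e ⊢
    rw [e]
    have hg' := BC_abs hg
    exact BC_integrable (BC_mul_cont (BC_abs hf) (hP _ hg').2.2.2.1.continuous)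

theorem sym (hP : PotStatement) : SymStatement := by
  intro f g hf hg
  have h1 : ∀ x, f x * pot g x = ∫ y, f x * (g y / ‖x - y‖) := by
    intro x; unfold pot; rw [integral_const_mul]
  have h2 : ∀ y, g y * pot f y = ∫ x, f x * (g y / ‖x - y‖) := by
    intro y; unfold pot; rw [← integral_const_mul]
    congr 1; funext x
    rw [norm_sub_rev y x]; ring
  simp only [h1, h2]
  exact integral_integral_swap (integrable_prod hP hf hg)

end Pool.Agent.Lib.MP_405077_mp.H94
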